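import Pool.Agent.Helper64.IG.Goals

/-!
# Packet IAC of the project IG (MP_d01c92_ag)
-/

universe u

namespace Pool.Agent.Helper64.IG.PkIAC

open Pool.Agent.Helper64.IG

theorem alt_of_dec {K : Type u} [Field K] {n p : ℕ} {ω : Form K n p} (h : IsDec ω)
    (a : Fin p → Ix n p) (π : Equiv.Perm (Fin p)) :
    ω (a ∘ π) = ((Equiv.Perm.sign π : ℤ) : K) * ω a := by
  obtain ⟨c, φ, h⟩ := h
  rw [h, h]
  have h1 := Matrix.det_permute' π (Matrix.of fun i j => φ i (a j))
  have h2 : ((Matrix.of fun i j => φ i (a j)).submatrix id π) =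
      (fun i j => φ i ((a ∘ π) j) : Matrix (Fin p) (Fin p) K) := rfl
  rw [h2] at h1
  have h3 : (Matrix.of fun i j => φ i (a j)) = (fun i j => φ i (a j) : Matrix (Fin p) (Fin p) K) :=
    rfl
  rw [h3] at h1
  rw [h1]
  ring

theorem iact_zero {K : Type u} [Field K] {m : ℕ} (ρ : List (Fin m)) :
    iact ρ (0 : List Bool → K) = 0 := by
  funext b
  unfold iact
  by_cases h : b.length = m
  · rw [if_pos h]
    simp
  · rw [if_neg h]
    rfl

theorem mem_all {m : ℕ} {ρ : List (Fin m)} (h1 : ρ.Nodup) (h2 : ρ.length = m) (i : Fin m) :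
    i ∈ ρ := by
  have h3 : ρ.toFinset = Finset.univ := by
    refine Finset.eq_univ_of_card _ ?_
    rw [List.toFinset_card_of_nodup h1, h2, Fintype.card_fin]
  have h4 : i ∈ ρ.toFinset := by
    rw [h3]
    exact Finset.mem_univ i
  exact List.mem_toFinset.1 h4

/-- **Packet IAC.** -/
theorem iac (sg : G_SG.{u,0}) : G_IAC.{u} := by
  intro K _ C m ρ z h1 h2 hz
  rcases hz with rfl | ⟨x, hx, n, p, hnp, L', hL1, hL2, rfl⟩
  · exact Or.inl (iact_zero ρ)
  · have hidx : ∀ i : Fin m, ρ.idxOf i < L'.length := fun i =>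
      lt_of_lt_of_eq (List.idxOf_lt_length_of_mem (mem_all h1 h2 i)) (h2.trans hL2.symm)
    set L : Fin m → Ix n p := fun i => L'.get ⟨ρ.idxOf i, hidx i⟩ with hL
    have hmap : ρ.map L = L' := by
      refine List.ext_get ?_ fun k hk hk' => ?_
      · rw [List.length_map, h2, hL2]
      · have hk2 : k < ρ.length := by rw [h2, ← hL2]; exact hk'
        have h3 : (ρ.map L).get ⟨k, hk⟩ = L (ρ.get ⟨k, hk2⟩) := by simp
        rw [h3, hL]
        have h4 : ρ.idxOf (ρ.get ⟨k, hk2⟩) = k := 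
          List.get_idxOf h1 ⟨k, hk2⟩
        show L'.get ⟨ρ.idxOf (ρ.get ⟨k, hk2⟩), _⟩ = L'.get ⟨k, hk'⟩
        congr 1
        exact Fin.ext h4
    have hinj : Function.Injective L := by
      intro i j hij
      have h3 : (⟨ρ.idxOf i, hidx i⟩ : Fin L'.length) = ⟨ρ.idxOf j, hidx j⟩ :=
        hL1.injective_get hij
      have h4 : ρ.idxOf i = ρ.idxOf j := congrArg Fin.val h3
      exact (List.idxOf_inj (mem_all h1 h2 i)).1 h4
    refine Or.inr ⟨x, hx, n, p, hnp, List.ofFn L, List.nodup_ofFn.2 hinj, by rw [List.length_ofFn],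
      ?_⟩
    have h3 := sg K (Ix n p) p (x.x n p) (alt_of_dec (x.dec n p)) m L ρ h1 h2
    rw [hmap] at h3
    exact h3

end Pool.Agent.Helper64.IG.PkIAC
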