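import Pool.Agent.Helper64.IG.Goals

/-!
# Packet NAT of the project IG (MP_d01c92_ag)
-/

universe u v w'

namespace Pool.Agent.Helper64.IG.PkNAT

open Pool.Agent.Helper64.IG

theorem map_deco {Y : Type u} {Z : Type v} (g : Y → Z) (σ : Tr Unit) :
    ∀ m : ℕ → Y, (σ.deco m).map g = σ.deco (fun n => g (m n)) := by
  induction σ with
  | leaf k x => intro m; rfl
  | node k x a b iha ihb =>
    intro m
    simp only [Tr.deco, Tr.map]
    rw [iha, ihb]

theorem deco_congr {Y : Type u} (σ : Tr Unit) :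
    ∀ m m' : ℕ → Y, (∀ n < σ.size, m n = m' n) → σ.deco m = σ.deco m' := by
  induction σ with
  | leaf k x =>
    intro m m' h
    simp only [Tr.deco]
    rw [h 0 (by simp [Tr.size])]
  | node k x a b iha ihb =>
    intro m m' h
    simp only [Tr.size] at h
    simp only [Tr.deco]
    rw [h 0 (by omega), iha _ (fun n => m' (1 + n)) (fun n hn => h _ (by omega)),
      ihb _ (fun n => m' (1 + a.size + n)) (fun n hn => h _ (by omega))]

theorem lab_map {Y : Type u} {Z : Type v} (g : Y → Z) (t : Tr Y) : (t.map g).lab = t.lab := by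
  cases t <;> rfl

theorem size_map {Y : Type u} {Z : Type v} (g : Y → Z) (t : Tr Y) : (t.map g).size = t.size := by
  induction t with
  | leaf k x => rfl
  | node k x a b iha ihb => simp only [Tr.map, Tr.size, iha, ihb]

theorem leaves_map {Y : Type u} {Z : Type v} (g : Y → Z) (t : Tr Y) :
    (t.map g).leaves = t.leaves := by
  induction t with
  | leaf k x => rfl
  | node k x a b iha ihb => simp only [Tr.map, Tr.leaves, iha, ihb]

theorem labLe_map {Y : Type u} {Z : Type v} (g : Y → Z) (w : ℕ) (t : Tr Y) :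
    (t.map g).LabLe w ↔ t.LabLe w := by
  induction t with
  | leaf k x => rfl
  | node k x a b iha ihb => simp only [Tr.map, Tr.LabLe, iha, ihb]

theorem dn_map {Y : Type u} {Z : Type v} (g : Y → Z) {k : ℕ} {s f : Tr Y} (h : Tr.Dn k s f) :
    Tr.Dn k (s.map g) (f.map g) := by
  induction h with
  | here f hf => exact Tr.Dn.here _ (by rw [lab_map]; exact hf)
  | left l x b hl _ ih => exact Tr.Dn.left l (g x) (b.map g) hl ih
  | right l x a hl _ ih => exact Tr.Dn.right l (g x) (a.map g) hl ih

theorem step_map {Y : Type u} {Z : Type v} (g : Y → Z) {s f : Tr Y} (h : Tr.Step s f) :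
    Tr.Step (s.map g) (f.map g) := by
  cases h with
  | left k x b h => exact Tr.Step.left k (g x) (b.map g) (dn_map g h)
  | right k x a h => exact Tr.Step.right k (g x) (a.map g) (dn_map g h)

theorem emb_map {Y : Type u} {Z : Type v} (g : Y → Z) {s t : Tr Y}
    (h : Tr.Emb (fun a b : Y => a = b) s t) :
    Tr.Emb (fun a b : Z => a = b) (s.map g) (t.map g) := by
  induction h with
  | leaf k x y h => exact Tr.Emb.leaf k (g x) (g y) (congrArg g h)
  | node k x y a b c d h _ _ ih1 ih2 =>
    exact Tr.Emb.node k (g x) (g y) _ _ _ _ (congrArg g h) ih1 ih2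
  | skip s t f h _ ih => exact Tr.Emb.skip _ _ _ (step_map g h) ih

theorem exists_deco {Y : Type u} (t : Tr Y) : ∃ φ : ℕ → Y, t = (t.map fun _ => ()).deco φ := by
  induction t with
  | leaf k x => exact ⟨fun _ => x, rfl⟩
  | node k x a b iha ihb =>
    obtain ⟨φ, hφ⟩ := iha
    obtain ⟨ψ, hψ⟩ := ihb
    refine ⟨fun n => if n = 0 then x else if n < 1 + (a.map fun _ => ()).size then φ (n - 1) else
      ψ (n - (1 + (a.map fun _ => ()).size)), ?_⟩
    simp only [Tr.map, Tr.deco]
    conv_lhs => rw [hφ, hψ]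
    congr 1
    · refine deco_congr _ _ _ fun n hn => ?_
      rw [if_neg (by omega), if_pos (by omega)]
      congr 1
      omega
    · refine deco_congr _ _ _ fun n hn => ?_
      rw [if_neg (by omega), if_neg (by omega)]
      congr 1
      omega

theorem deco_inv {Y : Type u} (σ : Tr Unit) : ∀ m : ℕ → Y, (σ.deco m).leaves = σ.leaves ∧
    (σ.deco m).size = σ.size ∧ (σ.deco m).lab = σ.lab ∧ ∀ w, (σ.deco m).LabLe w ↔ σ.LabLe w := by
  induction σ with
  | leaf k x => intro m; exact ⟨rfl, rfl, rfl, fun w => Iff.rfl⟩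
  | node k x a b iha ihb =>
    intro m
    obtain ⟨a1, a2, a3, a4⟩ := iha fun n => m (1 + n)
    obtain ⟨b1, b2, b3, b4⟩ := ihb fun n => m (1 + a.size + n)
    refine ⟨?_, ?_, rfl, fun w => ?_⟩
    · simp only [Tr.deco, Tr.leaves, a1, b1]
    · simp only [Tr.deco, Tr.size, a2, b2]
    · simp only [Tr.deco, Tr.LabLe, a4, b4]

theorem emb_refl {Y : Type u} (t : Tr Y) : Tr.Emb (fun a b : Y => a = b) t t := by
  induction t with
  | leaf k x => exact Tr.Emb.leaf k x x rfl
  | node k x a b iha ihb => exact Tr.Emb.node k x x a b a b rfl iha ihb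

/-- **Packet NAT.** -/
theorem nat : G_NAT.{u} := by
  refine ⟨fun Y Z σ m g => map_deco g σ m, fun Z σ m g => map_deco g σ m,
    fun Y σ m m' h => deco_congr σ m m' h, fun Z g s t h => emb_map g h, ?_,
    fun Y σ m => deco_inv σ m, fun Y t => ⟨leaves_map _ t, size_map _ t, lab_map _ t,
      fun w => labLe_map _ w t⟩, fun Y t => emb_refl t⟩
  intro K _ W t
  obtain ⟨φ, hφ⟩ := exists_deco t
  refine ⟨fun p => φ p.1 p.2, ?_⟩
  refine hφ.trans (deco_congr _ _ _ fun n hn => ?_)
  funext v
  unfold dat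
  rw [dif_pos hn]

end Pool.Agent.Helper64.IG.PkNAT
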