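import Pool.Agent.Helper64.IG.Goals

/-!
# Packet SL of the project IG (MP_d01c92_ag)
-/

universe u

namespace Pool.Agent.Helper64.IG.PkSL

open Pool.Agent.Helper64.IG

theorem fill_none (p : List (Option Bool)) (b : Bool) (bs : List Bool) :
    fill (none :: p) (b :: bs) = b :: fill p bs := by
  simp only [fill]

theorem fill_some (p : List (Option Bool)) (c : Bool) (bs : List Bool) :
    fill (some c :: p) bs = c :: fill p bs := by
  simp only [fill]

theorem fill_nil (bs : List Bool) : fill [] bs = [] := by
  simp only [fill]

theorem fill_length (p : List (Option Bool)) :
    ∀ bs : List Bool, bs.length = p.count none → (fill p bs).length = p.length := by
  induction p with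
  | nil => intro bs _; rw [fill_nil]; rfl
  | cons o p ih =>
    intro bs h
    cases o with
    | none =>
      rw [List.count_cons_self] at h
      cases bs with
      | nil => simp at h
      | cons b bs =>
        rw [fill_none, List.length_cons, List.length_cons, ih bs (by simpa using h)]
    | some c =>
      have h' : bs.length = p.count none := by
        rw [h, List.count_cons_of_ne (by simp)]
      rw [fill_some, List.length_cons, List.length_cons, ih bs h']

theorem fill_rep (q : List (Option Bool)) (i : ℕ) : ∀ bs : List Bool, i ≤ bs.length →
    fill (List.replicate i none ++ q) bs = bs.take i ++ fill q (bs.drop i) := by
  induction i with
  | zero => intro bs _; simp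
  | succ i ih =>
    intro bs h
    cases bs with
    | nil => simp at h
    | cons b bs =>
      rw [List.replicate_succ, List.cons_append, fill_none, ih bs (by simpa using h),
        List.take_succ_cons, List.drop_succ_cons, List.cons_append]

/-- **Packet SL.** -/
theorem sl : G_SL.{u} := by
  intro K _ Y hlen hslice
  have key : ∀ (p : List (Option Bool)) (i : ℕ) (z : List Bool → K), z ∈ Y (i + p.length) →
      (fun bs => if bs.length = (List.replicate i none ++ p).count none then
        z (fill (List.replicate i none ++ p) bs) else 0) ∈
        Y ((List.replicate i none ++ p).count none) := by
    intro p
    induction p with
    | nil =>
      intro i z hz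
      rw [List.append_nil, List.count_replicate_self]
      have h : (fun bs => if bs.length = i then
          z (fill (List.replicate i none) bs) else 0) = z := by
        funext bs
        by_cases h1 : bs.length = i
        · rw [if_pos h1]
          have h2 := fill_rep [] i bs h1.ge
          rw [List.append_nil, fill_nil, List.append_nil, List.take_of_length_le h1.le] at h2
          rw [h2]
        · rw [if_neg h1]
          exact (hlen i z bs hz h1).symm
      rw [h]
      exact hz
    | cons o p ih =>
      intro i z hz
      cases o with
      | none =>
        have h1 : List.replicate i none ++ none :: p =
            List.replicate (i + 1) (none : Option Bool) ++ p := by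
          rw [List.replicate_succ', List.append_assoc]
          rfl
        rw [h1]
        refine ih (i + 1) z ?_
        rw [List.length_cons] at hz
        rwa [Nat.add_right_comm, Nat.add_assoc]
      | some c =>
        have h1 := hslice (i + p.length) i c z (by omega) (by
          rw [List.length_cons] at hz
          exact hz)
        have h2 := ih i _ h1
        have h3 : (List.replicate i none ++ some c :: p).count none =
            (List.replicate i none ++ p).count none := by
          rw [List.count_append, List.count_append, List.count_cons_of_ne (by simp)]
        rw [h3]
        have h4 : (fun bs => if bs.length = (List.replicate i none ++ p).count none then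
            z (fill (List.replicate i none ++ some c :: p) bs) else 0) =
            (fun bs => if bs.length = (List.replicate i none ++ p).count none then
              (fun b => if b.length = i + p.length then z (b.take i ++ c :: b.drop i) else 0)
                (fill (List.replicate i none ++ p) bs) else 0) := by
          funext bs
          by_cases h5 : bs.length = (List.replicate i none ++ p).count none
          · rw [if_pos h5, if_pos h5]
            have h6 := fill_length _ bs h5
            rw [List.length_append, List.length_replicate] at h6
            have h7 : i ≤ bs.length := by
              rw [h5, List.count_append, List.count_replicate_self]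
              omega
            beta_reduce
            rw [if_pos h6, fill_rep _ i bs h7, fill_rep _ i bs h7, fill_some]
            have h8 : (bs.take i).length = i := by
              rw [List.length_take]
              omega
            have h9 : (bs.take i ++ fill p (bs.drop i)).take i = bs.take i := by
              rw [List.take_append_of_le_length (by omega), List.take_take, Nat.min_self]
            have h10 : (bs.take i ++ fill p (bs.drop i)).drop i = fill p (bs.drop i) := by
              rw [List.drop_append_of_le_length (by omega), List.drop_of_length_le (by omega),
                List.nil_append]
            rw [h9, h10]
          · rw [if_neg h5, if_neg h5]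
        rw [h4]
        exact h2
  intro pat z hz
  have h := key pat 0 z (by rwa [Nat.zero_add])
  simpa using h

end Pool.Agent.Helper64.IG.PkSL
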